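import Pool.Agent.H198R3.TPModels

/-!
# The Freiheitssatz fails for transposed Poisson algebras

In a transposed Poisson algebra put `D = [w, ·]`.  Then `w · [x, y] = x · D y - y · D x` and `D` is
a derivation of the bracket; hence multiplying a Lie polynomial of degree `k + 1` by `w^k` gives
its value in the algebra of vector fields on the line, and every identity of that Lie algebra is
annihilated by a power of `w`.  Take the standard identity `s` of degree five and
`f = x_1 + s(x_1; x_1, x_n, [x_1, x_n], [x_1, [x_1, x_n]])`.  Then `x_1^4 · f = x_1^5` lies in the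
ideal of `f` and in `T_{n-1}` and is not zero, whereas `f` is not in `T_{n-1}` because the Lie
polynomial does not vanish on `3 × 3` matrices (an algebra with zero product).
-/

namespace Pool.Agent.Results.MP_babce1_al.FreiheitssatzFails

open Pool.Agent.H198R3.TP

universe u

/-- The subalgebra `T_{n-1}` of the free transposed Poisson algebra `T_n` on the generators
`x_0, …, x_{n-1}`: it is generated by all of them except the last one. -/
def smaller (F : Type u) [Field F] (n : ℕ) : Submodule F (FreeTP F (Fin n)) :=
  subalg F {g | ∃ i : Fin n, (i : ℕ) + 1 < n ∧ g = FreeTP.gen F i}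

/-- **The Freiheitssatz fails for transposed Poisson algebras** over every field of
characteristic zero and for every number `n ≥ 2` of generators: some `f` in `T_n` that is not in
`T_{n-1}` generates an ideal containing a nonzero element of `T_{n-1}`. -/
theorem result (F : Type u) [Field F] [CharZero F] (n : ℕ) (hn : 2 ≤ n) :
    ∃ f : FreeTP F (Fin n), f ∉ smaller F n ∧
      ∃ g ∈ smaller F n, g ≠ 0 ∧ g ∈ ideal F f := by
  have h2 : (2 : F) ≠ 0 := two_ne_zero
  let i0 : Fin n := ⟨0, by omega⟩
  let i1 : Fin n := ⟨n - 1, by omega⟩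
  have hne : i0 ≠ i1 := by
    intro h
    have := congrArg Fin.val h
    simp only [i0, i1] at this
    omega
  let x : FreeTP F (Fin n) := FreeTP.gen F i0
  let y : FreeTP F (Fin n) := FreeTP.gen F i1
  let b : Fin 4 → FreeTP F (Fin n) := ![x, y, TPAlg.br F x y, TPAlg.br F x (TPAlg.br F x y)]
  let f : FreeTP F (Fin n) := x + std F x b
  have hx : x ∈ smaller F n := mem_subalg_of_mem ⟨i0, by simp only [i0]; omega, rfl⟩
  refine ⟨f, ?_, TPAlg.mul F x (TPAlg.mul F x (TPAlg.mul F x (TPAlg.mul F x x))), ?_, ?_, ?_⟩
  · -- `f` is not in the smaller subalgebra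
    intro hf
    let A := Matrix (Fin 3) (Fin 3) F
    letI : TPAlg F A := lieModel F A
    let φ : Fin n → A := fun i => if i = i0 then X F else if i = i1 then Y F else 0
    let ψ : Fin n → A := fun i => if i = i0 then X F else 0
    have key : FreeTP.lift φ f = FreeTP.lift ψ f := by
      refine eq_on_subalg (FreeTP.lift φ) (FreeTP.lift ψ) (FreeTP.lift_mul φ) (FreeTP.lift_br φ)
        (FreeTP.lift_mul ψ) (FreeTP.lift_br ψ) ?_ hf
      rintro s ⟨i, hi, rfl⟩
      rw [FreeTP.lift_gen, FreeTP.lift_gen]
      simp only [φ, ψ]
      by_cases h0 : i = i0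
      · rw [if_pos h0, if_pos h0]
      · rw [if_neg h0, if_neg h0, if_neg]
        intro h1
        have := congrArg Fin.val h1
        simp only [i1] at this
        omega
    have e1 : ∀ χ : Fin n → A, FreeTP.lift χ f = χ i0 +
        st (χ i0) ![χ i0, χ i1, cm (χ i0) (χ i1), cm (χ i0) (cm (χ i0) (χ i1))] := by
      intro χ
      rw [map_add, lift_std]
      congr 1
    rw [e1, e1] at key
    have f0 : φ i0 = X F := by simp [φ]
    have f1 : φ i1 = Y F := by simp [φ, hne.symm]
    have g0 : ψ i0 = X F := by simp [ψ]
    have g1 : ψ i1 = 0 := by simp [ψ, hne.symm]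
    rw [f0, f1, g0, g1] at key
    have z : st (X F) ![X F, 0, cm (X F) 0, cm (X F) (cm (X F) 0)] = 0 := by
      simp [st, l4, cm]
    rw [z] at key
    exact st_ne F (add_left_cancel key)
  · exact mul_mem_subalg hx (mul_mem_subalg hx (mul_mem_subalg hx (mul_mem_subalg hx hx)))
  · -- the fifth power of a generator is not zero
    intro h0
    let A := Polynomial F
    letI : TPAlg F A := commModel F A
    let χ : Fin n → A := fun _ => Polynomial.X
    have h1 := congrArg (FreeTP.lift χ) h0
    rw [map_zero, FreeTP.lift_mul, FreeTP.lift_mul, FreeTP.lift_mul, FreeTP.lift_mul] at h1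
    have h3 : (Polynomial.X * (Polynomial.X * (Polynomial.X * (Polynomial.X *
      Polynomial.X))) : Polynomial F) = 0 := h1
    have h4 : (Polynomial.X : Polynomial F) ≠ 0 := Polynomial.X_ne_zero
    simp [h4] at h3
  · -- it is `x⁴ f`
    have h3 : TPAlg.mul F x (TPAlg.mul F x (TPAlg.mul F x (TPAlg.mul F x x))) =
        TPAlg.mul F x (TPAlg.mul F x (TPAlg.mul F x (TPAlg.mul F x f))) := by
      simp only [f, mul_add']
      rw [main_identity F h2, add_zero]
    rw [h3]
    exact mul_mem_ideal (mul_mem_ideal (mul_mem_ideal (mul_mem_ideal (mem_ideal_self f) x) x) x) x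

end Pool.Agent.Results.MP_babce1_al.FreiheitssatzFails
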